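import Pool.Agent.Lib.Counters.BoundsLow
import Pool.Agent.Lib.Counters.BoundsUp
import Pool.Agent.Lib.Counters.Profiles
import Pool.Agent.Lib.Counters.ProfilesUp
import Pool.Agent.Lib.Counters.Crit
import Pool.Agent.Lib.Counters.Tight.Check
import Pool.Agent.Lib.Counters.Tight.Speed
import Pool.Agent.Lib.Counters.AlmostSure

/-!
MP_4af50b_pr: the limiting speed of the pairwise counter-update process.
-/

namespace Pool.Agent.Results.MP_4af50b_pr.LimitingSpeed

open Filter Topology Set Pool.Agent.Counters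

theorem tendsto_of_profiles {V : ℕ → ℝ} (hV : ∀ N, 2 ≤ N → IsSpeed N (V N)) {c : ℝ} (hc : 0 < c)
    (hlow : ∀ c', 0 < c' → c' < c → ∃ g, SubProfile c' g)
    (hup : ∀ ε, 0 < ε → ∃ c', 0 < c' ∧ c' < c + ε ∧ ∃ h, SuperProfile c' h) :
    Tendsto V atTop (𝓝 c) := by
  rw [Metric.tendsto_atTop]
  intro ε hε
  have hm : 0 < min (ε / 2) (c / 2) := by positivity
  obtain ⟨g, hg⟩ := hlow (c - min (ε / 2) (c / 2))
    (by have := min_le_right (ε / 2) (c / 2); linarith) (by linarith)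
  obtain ⟨N1, _, h1⟩ := lower_bound
    (by have := min_le_right (ε / 2) (c / 2); linarith : 0 < c - min (ε / 2) (c / 2)) hg
    (show 0 < ε / 4 by linarith)
  obtain ⟨c', hc', hcc', h, hh⟩ := hup (ε / 4) (by linarith)
  obtain ⟨N2, hN2, h2⟩ := upper_bound' hc' hh (show 0 < ε / 4 by linarith)
  refine ⟨max N1 N2, fun N hN => ?_⟩
  have hN1 : N1 ≤ N := le_trans (le_max_left _ _) hN
  have hN2' : N2 ≤ N := le_trans (le_max_right _ _) hN
  have h3 := h1 N hN1 (V N) (hV N (by omega))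
  have h4 := h2 N hN2' (V N) (hV N (by omega))
  have h5 := min_le_left (ε / 2) (c / 2)
  rw [Real.dist_eq, abs_lt]
  constructor <;> linarith

theorem wave_hinf {c : ℝ} {f : ℝ → ℝ} (hf : IsWave c f) :
    ∀ η : ℝ, 0 < η → ∃ X, AntitoneOn f (Iic X) ∧ 0 ≤ f X ∧ f X < η := by
  intro η hη
  obtain ⟨X, hX⟩ := (hf.right.eventually (gt_mem_nhds hη)).exists
  exact ⟨X, hf.anti.antitoneOn _, (hf.pos X).le, hX⟩

theorem tendsto_of_wave {V : ℕ → ℝ} (hV : ∀ N, 2 ≤ N → IsSpeed N (V N)) {c : ℝ} (hc : 0 < c)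
    {f : ℝ → ℝ} (hf : IsWave c f) : Tendsto V atTop (𝓝 c) := by
  apply tendsto_of_profiles hV hc
  · intro c' hc' hcc
    exact sub_profile_of hc hf.ode hf.left (wave_hinf hf) hc' hcc
  · intro ε hε
    exact ⟨c + ε / 2, by linarith, by linarith, super_profile_of_wave hc hf (by linarith)⟩

theorem lower_of_neg {V : ℕ → ℝ} (hV : ∀ N, 2 ≤ N → IsSpeed N (V N)) {c : ℝ}
    (hlim : Tendsto V atTop (𝓝 c)) {q : ℝ} (hq : 0 < q) (hq1 : q < 1)
    (hZ : ∃ E, 0 < E ∧ B q E < 0) : speed q ≤ c := by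
  obtain ⟨X, hX, hX0⟩ := fq_of_neg hq hq1 hZ
  have hs := speed_pos hq hq1
  by_contra hcon
  push Not at hcon
  -- choose `c < c' < speed q`
  obtain ⟨c', h1, h2⟩ := exists_between (max_lt hcon hs)
  have h1' : c < c' := lt_of_le_of_lt (le_max_left _ _) h1
  have h1'' : 0 < c' := lt_of_le_of_lt (le_max_right _ _) h1
  obtain ⟨g, hg⟩ := sub_profile_of hs (fq_ode hq hq1) (fq_left hq hq1)
    (fun η hη => ⟨X, hX, hX0.ge, by rw [hX0]; exact hη⟩) h1'' h2
  obtain ⟨N0, hN0, h3⟩ := lower_bound h1'' hg (show 0 < (c' - c) / 2 by linarith)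
  have h4 : c' - (c' - c) / 2 ≤ c := by
    refine ge_of_tendsto hlim ?_
    filter_upwards [eventually_ge_atTop N0] with N hN
    exact h3 N hN (V N) (hV N (by omega))
  linarith

theorem upper_of_trap {V : ℕ → ℝ} (hV : ∀ N, 2 ≤ N → IsSpeed N (V N)) {c : ℝ}
    (hlim : Tendsto V atTop (𝓝 c)) {q : ℝ} (hq : 0 < q) (hq1 : q < 1)
    (hP : ∃ E, 0 < E ∧ (∀ E', 0 < E' → E' ≤ E → 0 < B q E') ∧
      (B q (q * E)) ^ 2 < speed q / 2 * B q E) : c ≤ speed q := by
  obtain ⟨hanti, hfloor, hlt⟩ := fq_of_trap hq hq1 hP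
  have hs := speed_pos hq hq1
  refine le_of_forall_pos_le_add (fun ε hε => ?_)
  obtain ⟨c', hc', hcc', h, hh⟩ := super_profile_of_floor hs (fq_ode hq hq1) (fq_left hq hq1)
    hanti hfloor hlt (show 0 < ε / 2 by linarith)
  obtain ⟨N0, hN0, h3⟩ := upper_bound' hc' hh (show 0 < ε / 2 by linarith)
  have h4 : c ≤ c' + ε / 2 := by
    refine le_of_tendsto hlim ?_
    filter_upwards [eventually_ge_atTop N0] with N hN
    exact h3 N hN (V N) (hV N (by omega))
  linarith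

/-- The speeds `V(N)` of the pairwise counter-update process converge.  The limit `c` is the
unique speed of a monotone travelling wave `c f'(x) = -2 f(x-1) (f(x-1) - f(x))` from `1` to `0`, and
`c = 2 (1-q) / (-log q)` where `q` is the unique number in `(0,1)` for which the entire function `B q`
is positive on `(0,∞)` and tends to `0` at infinity. -/
theorem result :
    ∃ (V : ℕ → ℝ) (c q : ℝ),
      (∀ N, 2 ≤ N → IsSpeed N (V N) ∧ IsLongRunAverage N (V N)) ∧
      Tendsto V atTop (𝓝 c) ∧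
      (∀ c' : ℝ, 0 < c' → ((∃ f, IsWave c' f) ↔ c' = c)) ∧
      (0 < q ∧ q < 1 ∧ c = 2 * (1 - q) / (-Real.log q)) ∧
      (∀ q' : ℝ, 0 < q' → q' < 1 →
        (((∀ E, 0 < E → 0 < B q' E) ∧ Tendsto (B q') atTop (𝓝 0)) ↔ q' = q)) ∧
      1.24141088786 < c ∧ c < 1.24141088787 := by
  classical
  have hZ1 := Tight.tight_neg
  have hP2 := Tight.tight_trap
  have h01 : (0 : ℝ) < 2816980421 / 8000000000 := by norm_num
  have h01' : (2816980421 / 8000000000 : ℝ) < 1 := by norm_num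
  have h02 : (0 : ℝ) < 35212255263 / 100000000000 := by norm_num
  have h02' : (35212255263 / 100000000000 : ℝ) < 1 := by norm_num
  obtain ⟨q, hq, hq1, hpos, htend⟩ := exists_critical ⟨_, h01, h01', hZ1⟩ ⟨_, h02, h02', hP2⟩
  have hV' : ∀ N, ∃ v : ℝ, 2 ≤ N → IsSpeed N v := by
    intro N
    by_cases hN : 2 ≤ N
    · obtain ⟨v, hv, _⟩ := exists_speed hN
      exact ⟨v, fun _ => hv⟩
    · exact ⟨0, fun h => absurd h hN⟩
  choose V hV using hV'
  have hs := speed_pos hq hq1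
  have hwave := isWave_of_critical hq hq1 hpos htend
  have hlim : Tendsto V atTop (𝓝 (speed q)) := tendsto_of_wave hV hs hwave
  have huniq : ∀ c' : ℝ, 0 < c' → (∃ f, IsWave c' f) → c' = speed q := by
    rintro c' hc' ⟨f, hf⟩
    exact tendsto_nhds_unique (tendsto_of_wave hV hc' hf) hlim
  refine ⟨V, speed q, q, fun N hN => ⟨hV N hN, (hV N hN).isLongRunAverage hN⟩, hlim, ?_,
    ⟨hq, hq1, rfl⟩, ?_, ?_, ?_⟩
  · intro c' hc'
    constructor
    · exact huniq c' hc'
    · intro h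
      subst h
      exact ⟨_, hwave⟩
  · intro q' hq' hq1'
    constructor
    · rintro ⟨hp, ht⟩
      have h1 := huniq (speed q') (speed_pos hq' hq1') ⟨_, isWave_of_critical hq' hq1' hp ht⟩
      exact speed_strictMono.injOn ⟨hq', hq1'⟩ ⟨hq, hq1⟩ h1
    · intro h
      subst h
      exact ⟨hpos, htend⟩
  · exact lt_of_lt_of_le Tight.speed_lower (lower_of_neg hV hlim h01 h01' hZ1)
  · exact lt_of_le_of_lt (upper_of_trap hV hlim h02 h02' hP2) Tight.speed_upper

end Pool.Agent.Results.MP_4af50b_pr.LimitingSpeed
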